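import Mathlib

/-!
An Artin–Rees argument in the Rees algebra of an ideal.
-/

set_option autoImplicit false

universe u

namespace Pool.Agent.H737R4

open Polynomial

section

variable {R : Type u} [CommRing R] (I : Ideal R)

/-- the ideal of the Rees algebra cut out by a sequence of ideals -/
def seqIdeal (S : ℕ → Ideal R) (hS : ∀ a t, I ^ a * S t ≤ S (a + t)) :
    Ideal (reesAlgebra I) where
  carrier := {f | ∀ t, (f : R[X]).coeff t ∈ S t}
  add_mem' := by
    intro f g hf hg t
    rw [Subalgebra.coe_add, coeff_add]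
    exact Ideal.add_mem _ (hf t) (hg t)
  zero_mem' := by
    intro t
    rw [Subalgebra.coe_zero, coeff_zero]
    exact Ideal.zero_mem _
  smul_mem' := by
    intro c f hf t
    rw [smul_eq_mul, Subalgebra.coe_mul, coeff_mul]
    apply Ideal.sum_mem
    rintro ⟨a, b⟩ hab
    rw [← (Finset.HasAntidiagonal.mem_antidiagonal.mp hab)]
    exact hS a b (Ideal.mul_mem_mul (c.2 a) (hf b))

theorem mem_seqIdeal (S : ℕ → Ideal R) (hS : ∀ a t, I ^ a * S t ≤ S (a + t))
    (f : reesAlgebra I) : f ∈ seqIdeal I S hS ↔ ∀ t, (f : R[X]).coeff t ∈ S t := Iff.rfl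

theorem artin [IsNoetherianRing R] (M : Ideal R) (c : ℕ) (S : ℕ → Ideal R)
    (hS : ∀ a t, I ^ a * S t ≤ S (a + t))
    (hsat : ∀ t, ∀ x ∈ S t, ∃ e : ℕ, ∀ y ∈ M ^ e, y * x ∈ I ^ (t + c)) :
    ∃ t₀, ∀ t, t₀ ≤ t → M ^ t * I ^ t ⊓ S t ≤ I ^ (t + c) := by
  classical
  let A := reesAlgebra I
  have hc : ∀ a t, I ^ a * I ^ (t + c) ≤ I ^ ((a + t) + c) := by
    intro a t
    rw [← pow_add, add_assoc]
  let Ic : Ideal A := seqIdeal I (fun t => I ^ (t + c)) hc
  let N : Ideal A := seqIdeal I S hS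
  let MA : Ideal A := M.map (algebraMap R A)
  -- a power of `MA` multiplies `N` into `Ic`
  have h1 : ∃ e : ℕ, MA ^ e * N ≤ Ic := by
    have hfg : N.FG := IsNoetherian.noetherian N
    obtain ⟨G, hG⟩ := hfg
    have h2 : ∀ g : A, g ∈ N → ∃ e : ℕ, ∀ y ∈ M ^ e, algebraMap R A y * g ∈ Ic := by
      intro g hg
      choose! e he using fun t => hsat t ((g : R[X]).coeff t) (hg t)
      refine ⟨(Finset.range ((g : R[X]).natDegree + 1)).sup e, ?_⟩
      intro y hy t
      have h3 : ((algebraMap R A y * g : A) : R[X]).coeff t = y * (g : R[X]).coeff t := by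
        rw [Subalgebra.coe_mul]
        change ((Polynomial.C y : R[X]) * (g : R[X])).coeff t = _
        rw [coeff_C_mul]
      show ((algebraMap R A y * g : A) : R[X]).coeff t ∈ I ^ (t + c)
      rw [h3]
      by_cases ht : t ≤ (g : R[X]).natDegree
      · apply he t
        apply Ideal.pow_le_pow_right _ hy
        exact Finset.le_sup (Finset.mem_range.2 (by omega))
      · rw [coeff_eq_zero_of_natDegree_lt (by omega), mul_zero]
        exact Ideal.zero_mem _
    choose! e he using h2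
    refine ⟨G.sup e, ?_⟩
    have h4 : MA ^ (G.sup e) = (M ^ (G.sup e)).map (algebraMap R A) := by
      rw [Ideal.map_pow]
    rw [h4, ← hG]
    change Ideal.map (algebraMap R A) (M ^ (G.sup e)) * Ideal.span (G : Set A) ≤ Ic
    unfold Ideal.map
    rw [Ideal.span_mul_span', Ideal.span_le]
    rintro z ⟨_, ⟨y, hy, rfl⟩, g, hg, rfl⟩
    have hgN : g ∈ N := by
      rw [← hG]
      exact Ideal.subset_span hg
    apply he g hgN
    exact Ideal.pow_le_pow_right (Finset.le_sup hg) hy
  obtain ⟨e, he⟩ := h1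
  -- Artin–Rees in `A ⧸ Ic`
  let N' : Submodule A (A ⧸ Ic) := Submodule.map (Submodule.mkQ Ic) N
  obtain ⟨k, hk⟩ := Ideal.exists_pow_inf_eq_pow_smul (R := A) (M := A ⧸ Ic) MA N'
  refine ⟨k + e, ?_⟩
  rintro t ht x ⟨hx1, hx2⟩
  have hxI : x ∈ I ^ t := Ideal.mul_le_right hx1
  let f : A := ⟨monomial t x, reesAlgebra.monomial_mem.2 hxI⟩
  have hcoe : ∀ i, (f : R[X]).coeff i = if t = i then x else 0 := fun i => coeff_monomial
  have hfN : f ∈ N := by
    intro i
    rw [hcoe]
    split_ifs with h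
    · rw [← h]; exact hx2
    · exact Ideal.zero_mem _
  have hfM : f ∈ MA ^ t := by
    have h7 : MA ^ t = (M ^ t).map (algebraMap R A) := by
      rw [Ideal.map_pow]
    have h5 : ∃ g : A, (g : R[X]) = monomial t x ∧ g ∈ MA ^ t := by
      refine Submodule.mul_induction_on hx1 ?_ ?_
      · intro m hm y hy
        refine ⟨algebraMap R A m * ⟨monomial t y, reesAlgebra.monomial_mem.2 hy⟩, ?_, ?_⟩
        · rw [Subalgebra.coe_mul]
          change (Polynomial.C m : R[X]) * monomial t y = monomial t (m * y)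
          rw [C_mul_monomial]
        · apply Ideal.mul_mem_right
          rw [h7]
          exact Ideal.mem_map_of_mem _ hm
      · rintro y z ⟨g, hg, hg'⟩ ⟨g2, hg2, hg2'⟩
        refine ⟨g + g2, ?_, Ideal.add_mem _ hg' hg2'⟩
        rw [Subalgebra.coe_add, hg, hg2, map_add]
    obtain ⟨g, hg, hg'⟩ := h5
    have : f = g := Subtype.ext hg.symm
    rw [this]
    exact hg'
  have hq : Submodule.mkQ Ic f ∈ MA ^ t • (⊤ : Submodule A (A ⧸ Ic)) ⊓ N' := by
    refine ⟨?_, Submodule.mem_map_of_mem hfN⟩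
    have h8 : Submodule.mkQ Ic f = f • (Submodule.mkQ Ic (1 : A)) := by
      rw [← map_smul, smul_eq_mul, mul_one]
    rw [h8]
    exact Submodule.smul_mem_smul hfM trivial
  rw [hk t (by omega)] at hq
  have h9 : MA ^ (t - k) • (MA ^ k • (⊤ : Submodule A (A ⧸ Ic)) ⊓ N') ≤ ⊥ := by
    calc MA ^ (t - k) • (MA ^ k • (⊤ : Submodule A (A ⧸ Ic)) ⊓ N')
        ≤ MA ^ (t - k) • N' := Submodule.smul_mono le_rfl inf_le_right
      _ ≤ MA ^ e • N' := Submodule.smul_mono_left (Ideal.pow_le_pow_right (by omega))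
      _ = Submodule.map (Submodule.mkQ Ic) (MA ^ e • N) := (Submodule.map_smul'' _ _ _).symm
      _ ≤ Submodule.map (Submodule.mkQ Ic) Ic := Submodule.map_mono he
      _ ≤ ⊥ := by
          rw [Submodule.mkQ_map_self]
  have h10 : Submodule.mkQ Ic f = 0 := by
    have := h9 hq
    rwa [Submodule.mem_bot] at this
  have h11 : f ∈ Ic := by
    rwa [Submodule.mkQ_apply, Submodule.Quotient.mk_eq_zero] at h10
  have h12 := h11 t
  change (f : R[X]).coeff t ∈ I ^ (t + c) at h12
  rw [hcoe, if_pos rfl] at h12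
  exact h12

end

end Pool.Agent.H737R4
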