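import Pool.Agent.H737R4.Min

/-!
Descent from the algebraic closure.
-/

set_option autoImplicit false

universe u

namespace Pool.Agent.H737R4

open MvPolynomial

section

variable {k : Type u} [Field k] {n : ℕ}

/-- base change to the algebraic closure -/
noncomputable def bc (k : Type u) [Field k] (n : ℕ) : MvPolynomial (Fin (n + 1)) k →+*
    MvPolynomial (Fin (n + 1)) (AlgebraicClosure k) :=
  MvPolynomial.map (algebraMap k (AlgebraicClosure k))

theorem bc_comap (A : Ideal (MvPolynomial (Fin (n + 1)) k)) :
    (A.map (bc k n)).comap (bc k n) = A := by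
  classical
  apply le_antisymm _ Ideal.le_comap_map
  obtain ⟨π, hπ⟩ := LinearMap.exists_leftInverse_of_injective
    (Algebra.linearMap k (AlgebraicClosure k))
    (LinearMap.ker_eq_bot.2 (algebraMap k (AlgebraicClosure k)).injective)
  have hπ1 : ∀ a : k, π (algebraMap k (AlgebraicClosure k) a) = a := fun a =>
    congrArg (fun g => g a) hπ
  let Pr : MvPolynomial (Fin (n + 1)) (AlgebraicClosure k) → MvPolynomial (Fin (n + 1)) k :=
    fun f => ∑ m ∈ f.support, monomial m (π (coeff m f))
  have hPr : ∀ f m, coeff m (Pr f) = π (coeff m f) := by
    intro f m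
    change coeff m (∑ m ∈ f.support, monomial m (π (coeff m f))) = _
    rw [coeff_sum]
    simp only [coeff_monomial]
    rw [Finset.sum_ite_eq']
    split_ifs with h
    · rfl
    · rw [notMem_support_iff.1 h, map_zero]
  have hadd : ∀ f g, Pr (f + g) = Pr f + Pr g := by
    intro f g
    ext m
    rw [hPr, coeff_add, coeff_add, hPr, hPr, map_add]
  have hmul : ∀ r f, Pr (bc k n r * f) = r * Pr f := by
    intro r f
    ext m
    rw [hPr, coeff_mul, coeff_mul, map_sum]
    apply Finset.sum_congr rfl
    rintro ⟨a, b⟩ _
    simp only [bc, coeff_map]
    rw [hPr, ← Algebra.smul_def, map_smul, smul_eq_mul]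
  have hbc : ∀ r, Pr (bc k n r) = r := by
    intro r
    ext m
    rw [hPr]
    simp only [bc, coeff_map]
    rw [hπ1]
  have key : ∀ f ∈ A.map (bc k n), ∀ s, Pr (s * f) ∈ A := by
    intro f hf
    unfold Ideal.map at hf
    refine Submodule.span_induction ?_ ?_ ?_ ?_ hf
    · rintro _ ⟨r, hr, rfl⟩ s
      rw [mul_comm, hmul]
      exact A.mul_mem_right _ hr
    · intro s
      have : Pr 0 = 0 := by
        ext m; rw [hPr, coeff_zero, map_zero, coeff_zero]
      rw [mul_zero, this]; exact A.zero_mem
    · intro f g _ _ hf hg s
      rw [mul_add, hadd]; exact A.add_mem (hf s) (hg s)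
    · intro a f _ hf s
      rw [smul_eq_mul, ← mul_assoc]
      exact hf _
  intro r hr
  have := key _ hr 1
  rwa [one_mul, hbc] at this

theorem bc_radical [CharZero k] (A : Ideal (MvPolynomial (Fin (n + 1)) k)) (hA : A.IsRadical) :
    (A.map (bc k n)).IsRadical := by
  classical
  -- Galois conjugation
  have hconj : ∀ (σ : Gal(AlgebraicClosure k/k)) (f : MvPolynomial (Fin (n + 1)) (AlgebraicClosure k)),
      f ∈ A.map (bc k n) →
      MvPolynomial.map (σ : AlgebraicClosure k →+* AlgebraicClosure k) f ∈ A.map (bc k n) := by
    intro σ f hf
    have h1 := Ideal.mem_map_of_mem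
      (MvPolynomial.map (σ : AlgebraicClosure k →+* AlgebraicClosure k) :
        MvPolynomial (Fin (n + 1)) (AlgebraicClosure k) →+* _) hf
    rw [Ideal.map_map] at h1
    have h2 : (MvPolynomial.map (σ : AlgebraicClosure k →+* AlgebraicClosure k) :
        MvPolynomial (Fin (n + 1)) (AlgebraicClosure k) →+* _).comp (bc k n) = bc k n := by
      apply MvPolynomial.ringHom_ext
      · intro a
        simp [bc]
      · intro i
        simp [bc]
    rwa [h2] at h1
  have main : ∀ (c : ℕ) (f : MvPolynomial (Fin (n + 1)) (AlgebraicClosure k)),
      f.support.card ≤ c → f ∈ (A.map (bc k n)).radical → f ∈ A.map (bc k n) := by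
    intro c
    induction c with
    | zero =>
      intro f hc _
      have : f = 0 := by
        rw [← support_eq_empty]
        exact Finset.card_eq_zero.1 (by omega)
      rw [this]
      exact Ideal.zero_mem _
    | succ c ih =>
      intro f hc hf
      by_cases hf0 : f = 0
      · rw [hf0]; exact Ideal.zero_mem _
      obtain ⟨m₀, hm₀⟩ := ne_zero_iff.1 hf0
      -- normalise
      set g := C (coeff m₀ f)⁻¹ * f with hg
      have hg1 : coeff m₀ g = 1 := by
        rw [hg, coeff_C_mul, inv_mul_cancel₀ hm₀]
      have hgf : f = C (coeff m₀ f) * g := by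
        rw [hg, ← mul_assoc, ← C_mul, mul_inv_cancel₀ hm₀, C_1, one_mul]
      have hgs : g.support = f.support := by
        ext m
        rw [mem_support_iff, mem_support_iff, hg, coeff_C_mul]
        simp [hm₀]
      have hgr : g ∈ (A.map (bc k n)).radical := Ideal.mul_mem_left _ _ hf
      suffices hgA : g ∈ A.map (bc k n) by
        rw [hgf]
        exact Ideal.mul_mem_left _ _ hgA
      by_cases hrat : ∀ m, coeff m g ∈ Set.range (algebraMap k (AlgebraicClosure k))
      · obtain ⟨r, hr⟩ : ∃ r, bc k n r = g := by
          choose a ha using hrat
          refine ⟨∑ m ∈ g.support, monomial m (a m), ?_⟩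
          rw [map_sum]
          conv_rhs => rw [g.as_sum]
          apply Finset.sum_congr rfl
          intro m _
          simp only [bc, map_monomial]
          rw [ha]
        obtain ⟨e, he⟩ := hgr
        rw [← hr, ← map_pow] at he
        have h3 : r ^ e ∈ A := by
          rw [← bc_comap A]
          exact he
        rw [← hr]
        exact Ideal.mem_map_of_mem _ (hA ⟨e, h3⟩)
      · push Not at hrat
        obtain ⟨m₁, hm₁⟩ := hrat
        rw [InfiniteGalois.mem_range_algebraMap_iff_fixed] at hm₁
        push Not at hm₁
        obtain ⟨σ, hσ⟩ := hm₁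
        let u := MvPolynomial.map (σ : AlgebraicClosure k →+* AlgebraicClosure k) g - g
        have hu : ∀ m, coeff m u = σ (coeff m g) - coeff m g := by
          intro m
          change coeff m (MvPolynomial.map (σ : AlgebraicClosure k →+* AlgebraicClosure k) g - g) = _
          rw [coeff_sub, coeff_map]
          rfl
        have hur : u ∈ (A.map (bc k n)).radical := by
          apply Ideal.sub_mem _ _ hgr
          obtain ⟨e, he⟩ := hgr
          refine ⟨e, ?_⟩
          rw [← map_pow]
          exact hconj σ _ he
        have hus : u.support ⊆ g.support.erase m₀ := by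
          intro m hm
          rw [mem_support_iff, hu] at hm
          rw [Finset.mem_erase, mem_support_iff]
          constructor
          · rintro rfl
            apply hm
            rw [hg1, map_one, sub_self]
          · intro h0
            apply hm
            rw [h0, map_zero, sub_self]
        have hm0g : m₀ ∈ g.support := by
          rw [mem_support_iff, hg1]; exact one_ne_zero
        have huA : u ∈ A.map (bc k n) := by
          apply ih u _ hur
          have h4 := Finset.card_le_card hus
          rw [Finset.card_erase_of_mem hm0g, hgs] at h4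
          omega
        have hu1 : coeff m₁ u ≠ 0 := by
          rw [hu]
          exact sub_ne_zero.2 hσ
        let v := g - C (coeff m₁ g / coeff m₁ u) * u
        have hvs : v.support ⊆ g.support.erase m₁ := by
          intro m hm
          have hvm : coeff m v = coeff m g - coeff m₁ g / coeff m₁ u * coeff m u := by
            have h6 : coeff m (C (coeff m₁ g / coeff m₁ u) * u) =
                coeff m₁ g / coeff m₁ u * coeff m u := coeff_C_mul _ _ _
            rw [← h6]
            exact coeff_sub _ _ _ _
          rw [mem_support_iff, hvm] at hm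
          rw [Finset.mem_erase, mem_support_iff]
          constructor
          · rintro rfl
            apply hm
            rw [div_mul_cancel₀ _ hu1, sub_self]
          · intro h0
            apply hm
            have hum : coeff m u = 0 := by rw [hu, h0, map_zero, sub_self]
            rw [h0, hum, mul_zero, sub_self]
        have hm1g : m₁ ∈ g.support := by
          rw [mem_support_iff]
          intro h0
          apply hu1
          rw [hu, h0, map_zero, sub_self]
        have hvA : v ∈ A.map (bc k n) := by
          apply ih v _ _
          · have h4 := Finset.card_le_card hvs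
            rw [Finset.card_erase_of_mem hm1g, hgs] at h4
            omega
          · exact Ideal.sub_mem _ hgr (Ideal.mul_mem_left _ _ (Ideal.le_radical huA))
        have h5 : g = v + C (coeff m₁ g / coeff m₁ u) * u := by
          change g = g - C (coeff m₁ g / coeff m₁ u) * u + C (coeff m₁ g / coeff m₁ u) * u
          rw [sub_add_cancel]
        rw [h5]
        exact Ideal.add_mem _ hvA (Ideal.mul_mem_left _ _ huA)
  intro f hf
  exact main _ f le_rfl hf

end

end Pool.Agent.H737R4
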