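import Pool.Agent.H737R4.Gen

/-!
The resurgence over arbitrary fields of characteristic zero.
-/

set_option autoImplicit false

universe u

namespace Pool.Agent.H737R4

open MvPolynomial Pool.Agent.Chud Pool.Agent.H580C Pool.Agent.H737R3 Pool.Agent.H737R3.Cont

section

variable {k : Type u} [Field k] {n : ℕ}

theorem bc_homog {d : ℕ} {f : MvPolynomial (Fin (n + 1)) k} (hf : f.IsHomogeneous d) :
    (bc k n f).IsHomogeneous d := hf.map _

theorem eval_bc (p : Fin (n + 1) → AlgebraicClosure k) (f : MvPolynomial (Fin (n + 1)) k) :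
    eval p (bc k n f) = aeval p f := by
  rw [bc, eval_map, aeval_def]

theorem linI_le_mI_zero {K : Type u} [Field K] (p : Fin (n + 1) → K) :
    linI p ≤ mI (0 : Fin (n + 1) → K) := by
  unfold linI
  rw [Ideal.span_le]
  rintro l ⟨hl, -⟩
  change eval 0 l = 0
  rw [MvPolynomial.eval_zero, constantCoeff_eq]
  apply hl.coeff_eq_zero
  simp

theorem X_notMem_linI {K : Type u} [Field K] {p : Fin (n + 1) → K} {j : Fin (n + 1)}
    (hj : p j ≠ 0) : (X j : MvPolynomial (Fin (n + 1)) K) ∉ linI p := by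
  intro h
  have h3 : eval p (X j) = 0 := linI_le_mI p h
  rw [eval_X] at h3
  exact hj h3

theorem exists_ne {K : Type u} [Field K] {p : Fin (n + 1) → K} (hp : p ≠ 0) :
    ∃ j, p j ≠ 0 := by
  by_contra hcon
  push Not at hcon
  exact hp (funext hcon)

section graded

attribute [local instance] MvPolynomial.gradedAlgebra

theorem bc_map_homog {I : Ideal (MvPolynomial (Fin (n + 1)) k)}
    (hhom : ∀ f ∈ I, ∀ d : ℕ, homogeneousComponent d f ∈ I) :
    (I.map (bc k n)).IsHomogeneous (homogeneousSubmodule (Fin (n + 1)) (AlgebraicClosure k)) := by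
  have h1 : I.map (bc k n) = Ideal.span {g | ∃ r ∈ I, ∃ d : ℕ, r.IsHomogeneous d ∧ g = bc k n r} := by
    apply le_antisymm
    · rw [Ideal.map_le_iff_le_comap]
      intro r hr
      rw [Ideal.mem_comap, ← sum_homogeneousComponent r, map_sum]
      apply Ideal.sum_mem
      intro d _
      exact Ideal.subset_span ⟨_, hhom r hr d, d, homogeneousComponent_isHomogeneous d r, rfl⟩
    · rw [Ideal.span_le]
      rintro _ ⟨r, hr, d, -, rfl⟩
      exact Ideal.mem_map_of_mem _ hr
  rw [h1]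
  apply Ideal.homogeneous_span
  rintro _ ⟨r, -, d, hr, rfl⟩
  exact ⟨d, bc_homog hr⟩

theorem map_le_linI {I : Ideal (MvPolynomial (Fin (n + 1)) k)}
    (hhom : ∀ f ∈ I, ∀ d : ℕ, homogeneousComponent d f ∈ I)
    {p : Fin (n + 1) → AlgebraicClosure k} (hp : p ≠ 0) (hI : ∀ f ∈ I, aeval p f = 0) :
    I.map (bc k n) ≤ linI p := by
  rw [Ideal.map_le_iff_le_comap]
  intro r hr
  rw [Ideal.mem_comap, ← sum_homogeneousComponent r, map_sum]
  apply Ideal.sum_mem
  intro d _
  have h2 : bc k n (homogeneousComponent d r) ∈ mI p ^ 1 := by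
    rw [pow_one]
    change eval p _ = 0
    rw [eval_bc]
    exact hI _ (hhom r hr d)
  have h3 := mem_linI_pow (bc_homog (homogeneousComponent_isHomogeneous d r)) hp h2
  rwa [pow_one] at h3

theorem pt_min {I : Ideal (MvPolynomial (Fin (n + 1)) k)}
    (hmin : ∀ P ∈ I.minimalPrimes, P.height = (n : ℕ∞))
    {p : Fin (n + 1) → AlgebraicClosure k} (hp : p ≠ 0) (hI : I.map (bc k n) ≤ linI p) :
    (linI p).comap (bc k n) ∈ I.minimalPrimes := by
  have hprime := linI_prime hp
  have hprime' : ((linI p).comap (bc k n)).IsPrime := Ideal.comap_isPrime _ _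
  obtain ⟨P₀, hP₀, hle⟩ := Ideal.exists_minimalPrimes_le (Ideal.map_le_iff_le_comap.1 hI)
  have : P₀.IsPrime := hP₀.1.1
  obtain ⟨j, hj⟩ := exists_ne hp
  have h1 : (linI p).comap (bc k n) < mI (0 : Fin (n + 1) → k) := by
    rw [lt_iff_le_and_ne]
    constructor
    · rw [← bc_comap_mI]
      exact Ideal.comap_mono (linI_le_mI_zero p)
    · intro h
      have h2 : (X j : MvPolynomial (Fin (n + 1)) k) ∈ mI (0 : Fin (n + 1) → k) := by
        change eval 0 (X j) = 0
        rw [eval_X, Pi.zero_apply]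
      rw [← h, Ideal.mem_comap] at h2
      have h4 : bc k n (X j) = X j := by simp [bc]
      rw [h4] at h2
      exact X_notMem_linI hj h2
  have h2 := Ideal.height_strict_mono_of_isPrime_of_isPrime h1
  have h3 : ((linI p).comap (bc k n)).height ≤ (n : ℕ∞) := by
    have h4 := lt_of_lt_of_le h2 height_mI_zero_le
    rw [Nat.cast_add, Nat.cast_one] at h4
    exact (ENat.lt_add_one_iff (ENat.natCast_ne_top n)).1 h4
  have h5 := Ideal.eq_of_le_of_height_le P₀ hle (by rw [hmin P₀ hP₀]; exact h3)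
  rw [← h5]
  exact hP₀

theorem min_eq_gen {I : Ideal (MvPolynomial (Fin (n + 1)) k)}
    (hhom : ∀ f ∈ I, ∀ d : ℕ, homogeneousComponent d f ∈ I)
    (hmin : ∀ P ∈ I.minimalPrimes, P.height = (n : ℕ∞))
    {Q : Ideal (MvPolynomial (Fin (n + 1)) (AlgebraicClosure k))}
    (hQ : Q ∈ (I.map (bc k n)).minimalPrimes) :
    ∃ p : Fin (n + 1) → AlgebraicClosure k, p ≠ 0 ∧ Q = linI p := by
  have hQp : Q.IsPrime := hQ.1.1
  have hJQ : I.map (bc k n) ≤ Q := hQ.1.2
  have h0 : ∃ p : Fin (n + 1) → AlgebraicClosure k, p ≠ 0 ∧ p ∈ zeroLocus (AlgebraicClosure k) Q := by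
    by_contra hcon
    push Not at hcon
    have h1 : irr (AlgebraicClosure k) n ≤ Q := by
      rw [← IsPrime.vanishingIdeal_zeroLocus (K := AlgebraicClosure k) Q]
      unfold irr
      rw [Ideal.span_le]
      rintro _ ⟨j, rfl⟩ x hx
      have hx0 : x = 0 := by
        by_contra hne
        exact hcon x hne hx
      rw [hx0, aeval_X, Pi.zero_apply]
    have h2 := eq_mI_zero hQp.ne_top h1
    have hQ' : (Q.comap (bc k n)).IsPrime := Ideal.comap_isPrime _ _
    obtain ⟨P₀, hP₀, -⟩ := Ideal.exists_minimalPrimes_le (Ideal.map_le_iff_le_comap.1 hJQ)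
    have hP₀p : P₀.IsPrime := hP₀.1.1
    have h3 : ∃ p : Fin (n + 1) → AlgebraicClosure k, p ≠ 0 ∧
        p ∈ zeroLocus (AlgebraicClosure k) P₀ := by
      by_contra hcon2
      push Not at hcon2
      have h4 : irr k n ≤ P₀ := by
        rw [← IsPrime.vanishingIdeal_zeroLocus (K := AlgebraicClosure k) P₀]
        unfold irr
        rw [Ideal.span_le]
        rintro _ ⟨j, rfl⟩ x hx
        have hx0 : x = 0 := by
          by_contra hne
          exact hcon2 x hne hx
        rw [hx0, aeval_X, Pi.zero_apply]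
      have h5 := eq_mI_zero hP₀p.ne_top h4
      have h6 := hmin P₀ hP₀
      have h7 := le_height_mI_zero (k := k) (n := n)
      rw [← h5, h6] at h7
      have h8 : n + 1 ≤ n := by exact_mod_cast h7
      omega
    obtain ⟨p, hp, hz⟩ := h3
    have h9 : I.map (bc k n) ≤ linI p := map_le_linI hhom hp fun f hf => hz f (hP₀.1.2 hf)
    have h10 : Q ≤ linI p := hQ.2 ⟨linI_prime hp, h9⟩ (by rw [h2]; exact linI_le_mI_zero p)
    obtain ⟨j, hj⟩ := exists_ne hp
    exact X_notMem_linI hj (h10 (h1 (Ideal.subset_span ⟨j, rfl⟩)))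
  obtain ⟨p, hp, hz⟩ := h0
  refine ⟨p, hp, ?_⟩
  have hle : Q ≤ linI p := by
    intro f hf
    rw [← sum_homogeneousComponent f]
    apply Ideal.sum_mem
    intro d _
    have h1 : homogeneousComponent d f ∈ Q :=
      homogeneousComponent_mem_of_mem (min_homog (bc_map_homog hhom) hQ) hf d
    have h2 : homogeneousComponent d f ∈ mI p ^ 1 := by
      rw [pow_one]
      have := hz _ h1
      rw [aev] at this
      exact this
    have h3 := mem_linI_pow (homogeneousComponent_isHomogeneous d f) hp h2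
    rwa [pow_one] at h3
  have hpm := pt_min hmin hp (hJQ.trans hle)
  apply bc_incomp hQp hle
  exact hpm.2 ⟨Ideal.comap_isPrime _ _, Ideal.map_le_iff_le_comap.1 hJQ⟩ (Ideal.comap_mono hle)

end graded

theorem resGen [CharZero k] (hn : 2 ≤ n) (I : Ideal (MvPolynomial (Fin (n + 1)) k))
    (hrad : I.IsRadical)
    (hhom : ∀ f ∈ I, ∀ d : ℕ, homogeneousComponent d f ∈ I)
    (hmin : ∀ P ∈ I.minimalPrimes, P.height = (n : ℕ∞)) :
    ∃ ρ : ℝ, ρ < n ∧ ∀ a b : ℕ, ρ * b ≤ a → ∀ r : MvPolynomial (Fin (n + 1)) k,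
      (∀ P ∈ I.minimalPrimes, ∃ t, t ∉ P ∧ t * r ∈ I ^ a) → r ∈ I ^ b := by
  classical
  set J := I.map (bc k n) with hJ
  have hJrad : J.IsRadical := bc_radical I hrad
  have hfin : Finite J.minimalPrimes := (Ideal.finite_minimalPrimes_of_isNoetherianRing _ J)
  choose! p hp0 hp using fun Q hQ => min_eq_gen (k := k) (n := n) (I := I) (Q := Q) hhom hmin hQ
  have hinf : (⨅ Q : J.minimalPrimes, linI (p Q.1)) = J := by
    have h1 : sInf J.minimalPrimes = J := by
      rw [Ideal.sInf_minimalPrimes]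
      exact hJrad.radical
    conv_rhs => rw [← h1]
    rw [sInf_eq_iInf']
    exact iInf_congr fun Q => (hp Q.1 Q.2).symm
  rcases isEmpty_or_nonempty J.minimalPrimes with he | hne
  · refine ⟨n - 1, by linarith, fun a b _ r _ => ?_⟩
    have hJ' : J = ⊤ := by
      rw [← hinf]
      exact iInf_of_empty _
    have hI' : I = ⊤ := by
      rw [← bc_comap I, ← hJ, hJ', Ideal.comap_top]
    rw [hI', Ideal.top_pow]
    exact Submodule.mem_top
  obtain ⟨ρ, hρ, h⟩ := resurgence (K := AlgebraicClosure k) hn (fun Q : J.minimalPrimes => p Q.1)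
    (fun Q => hp0 Q.1 Q.2) (by
      intro P Q hPQ hle
      apply hPQ
      rw [← hp P.1 P.2, ← hp Q.1 Q.2] at hle
      exact Subtype.ext (le_antisymm hle (Q.2.2 ⟨P.2.1.1, P.2.1.2⟩ hle)))
  refine ⟨ρ, hρ, ?_⟩
  intro a b hab r hr
  have h2 := h a b hab (bc k n r) (by
    intro Q
    have h3 : J ≤ linI (p Q.1) := by
      have h4 : J ≤ Q.1 := Q.2.1.2
      rwa [hp Q.1 Q.2] at h4
    obtain ⟨t, ht, htr⟩ := hr _ (pt_min hmin (hp0 Q.1 Q.2) h3)
    rw [Ideal.mem_comap] at ht
    apply linI_pow_prim (hp0 Q.1 Q.2) ht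
    rw [← map_mul]
    refine Ideal.pow_right_mono h3 _ ?_
    rw [hJ, ← Ideal.map_pow]
    exact Ideal.mem_map_of_mem _ htr)
  rw [hinf, hJ, ← Ideal.map_pow] at h2
  rw [← bc_comap (I ^ b)]
  exact h2

end

end Pool.Agent.H737R4
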