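import Pool.Agent.H737R4.Prim

/-!
Minimal primes of height `N` of homogeneous ideals.
-/

set_option autoImplicit false

universe u

namespace Pool.Agent.H737R4

open MvPolynomial Pool.Agent.Chud Pool.Agent.H580C Pool.Agent.H737R3 Pool.Agent.H737R3.Cont

section

variable {K : Type u} [Field K] {n : ℕ}

theorem linI_prime {p : Fin (n + 1) → K} (hp : p ≠ 0) : (linI p).IsPrime := by
  rw [← ker_eq_linI hp]
  exact RingHom.ker_isPrime _

instance mI_max (p : Fin (n + 1) → K) : (mI p).IsMaximal := by
  apply RingHom.ker_isMaximal_of_surjective (eval p)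
  intro a
  exact ⟨C a, eval_C a⟩

theorem sub_const_mem (f : MvPolynomial (Fin (n + 1)) K) :
    f - C (eval (0 : Fin (n + 1) → K) f) ∈ irr K n := by
  induction f using MvPolynomial.induction_on with
  | C a => rw [eval_C, sub_self]; exact Ideal.zero_mem _
  | add f g hf hg =>
    have : f + g - C (eval (0 : Fin (n + 1) → K) (f + g)) =
        (f - C (eval (0 : Fin (n + 1) → K) f)) + (g - C (eval (0 : Fin (n + 1) → K) g)) := by
      rw [map_add, C_add]; ring
    rw [this]
    exact Ideal.add_mem _ hf hg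
  | mul_X f i hf =>
    rw [map_mul, eval_X, Pi.zero_apply, mul_zero, C_0, sub_zero]
    exact Ideal.mul_mem_left _ _ (Ideal.subset_span ⟨i, rfl⟩)

theorem eq_mI_zero {P : Ideal (MvPolynomial (Fin (n + 1)) K)} (hP : P ≠ ⊤)
    (h : irr K n ≤ P) : P = mI (0 : Fin (n + 1) → K) := by
  apply le_antisymm
  · intro f hf
    have h1 : C (eval (0 : Fin (n + 1) → K) f) ∈ P := by
      have h2 := P.sub_mem hf (h (sub_const_mem f))
      rwa [sub_sub_cancel] at h2
    change eval 0 f = 0
    by_contra hne
    apply hP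
    rw [Ideal.eq_top_iff_one]
    have h3 := P.mul_mem_left (C (eval (0 : Fin (n + 1) → K) f)⁻¹) h1
    rwa [← C_mul, inv_mul_cancel₀ hne, C_1] at h3
  · intro f hf
    have h1 : eval (0 : Fin (n + 1) → K) f = 0 := hf
    have h2 := h (sub_const_mem f)
    rwa [h1, C_0, sub_zero] at h2

theorem dimR : ringKrullDim (MvPolynomial (Fin (n + 1)) K) = ((n + 1 : ℕ) : WithBot ℕ∞) := by
  rw [MvPolynomial.ringKrullDim_of_isNoetherianRing, ringKrullDim_eq_zero_of_field, zero_add,
    Nat.card_eq_fintype_card, Fintype.card_fin]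

instance finDim : FiniteRingKrullDim (MvPolynomial (Fin (n + 1)) K) := by
  rw [finiteRingKrullDim_iff_ne_bot_and_top, dimR]
  constructor
  · exact WithBot.coe_ne_bot
  · intro h
    exact (ENat.coe_ne_top (n + 1)) (WithBot.coe_injective h)

/-- translation -/
noncomputable def trans (x : Fin (n + 1) → K) :
    MvPolynomial (Fin (n + 1)) K ≃+* MvPolynomial (Fin (n + 1)) K :=
  (AlgEquiv.ofAlgHom (aeval (fun i => X i + C (x i)) :
      MvPolynomial (Fin (n + 1)) K →ₐ[K] MvPolynomial (Fin (n + 1)) K)
    (aeval (fun i => X i - C (x i)) :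
      MvPolynomial (Fin (n + 1)) K →ₐ[K] MvPolynomial (Fin (n + 1)) K)
    (by
      apply MvPolynomial.algHom_ext
      intro i; simp)
    (by
      apply MvPolynomial.algHom_ext
      intro i; simp)).toRingEquiv

theorem aev (p : Fin (n + 1) → K) (f : MvPolynomial (Fin (n + 1)) K) :
    aeval p f = eval p f := by
  rw [← MvPolynomial.coe_aeval_eq_eval]
  rfl

theorem height_mI_zero [IsAlgClosed K] :
    (mI (0 : Fin (n + 1) → K)).height = ((n + 1 : ℕ) : ℕ∞) := by
  obtain ⟨m, hm, hh⟩ := Ideal.exists_isMaximal_height (R := MvPolynomial (Fin (n + 1)) K)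
  rw [dimR] at hh
  obtain ⟨x, hx⟩ := eq_vanishingIdeal_singleton_of_isMaximal K hm
  have h1 : mI (0 : Fin (n + 1) → K) = m.comap (trans (n := n) (-x)) := by
    ext f
    rw [Ideal.mem_comap, hx, mem_vanishingIdeal_singleton_iff]
    have h3 : (trans (n := n) (-x)) f = aeval (fun i => X i + C ((-x) i)) f := rfl
    rw [h3, ← AlgHom.comp_apply, comp_aeval]
    have h2 : (fun i => (aeval x) (X i + C ((-x) i)) : Fin (n + 1) → K) = 0 := by
      funext i
      simp
    rw [h2, aev]
    rfl
  rw [h1, RingEquiv.height_comap]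
  exact_mod_cast hh

theorem height_linI_le [IsAlgClosed K] {p : Fin (n + 1) → K} (hp : p ≠ 0) :
    (linI p).height ≤ (n : ℕ∞) := by
  have := linI_prime hp
  have h1 : linI p < mI (0 : Fin (n + 1) → K) := by
    rw [lt_iff_le_and_ne]
    constructor
    · unfold linI
      rw [Ideal.span_le]
      rintro l ⟨hl, -⟩
      change eval 0 l = 0
      rw [MvPolynomial.eval_zero, constantCoeff_eq]
      apply hl.coeff_eq_zero
      simp
    · intro h
      obtain ⟨j, hj⟩ : ∃ j, p j ≠ 0 := by
        by_contra hcon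
        push Not at hcon
        exact hp (funext hcon)
      have h2 : (X j : MvPolynomial (Fin (n + 1)) K) ∈ mI (0 : Fin (n + 1) → K) := by
        change eval 0 (X j) = 0
        rw [eval_X, Pi.zero_apply]
      rw [← h] at h2
      have h3 : eval p (X j) = 0 := linI_le_mI p h2
      rw [eval_X] at h3
      exact hj h3
  have h2 := Ideal.height_strict_mono_of_isPrime_of_isPrime h1
  rw [height_mI_zero] at h2
  rw [Nat.cast_add, Nat.cast_one] at h2
  exact (ENat.lt_add_one_iff (ENat.coe_ne_top n)).1 h2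

section graded

attribute [local instance] MvPolynomial.gradedAlgebra

theorem min_homog {I P : Ideal (MvPolynomial (Fin (n + 1)) K)}
    (hI : I.IsHomogeneous (homogeneousSubmodule (Fin (n + 1)) K)) (hP : P ∈ I.minimalPrimes) :
    P.IsHomogeneous (homogeneousSubmodule (Fin (n + 1)) K) := by
  have h1 : (P.homogeneousCore (homogeneousSubmodule (Fin (n + 1)) K)).toIdeal.IsPrime :=
    Ideal.IsPrime.homogeneousCore hP.1.1
  have h2 : I ≤ (P.homogeneousCore (homogeneousSubmodule (Fin (n + 1)) K)).toIdeal := by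
    rw [← hI.toIdeal_homogeneousCore_eq_self]
    exact Ideal.homogeneousCore_mono _ hP.1.2
  have h3 := hP.2 ⟨h1, h2⟩ (Ideal.toIdeal_homogeneousCore_le _ _)
  rw [Ideal.IsHomogeneous.iff_eq]
  exact le_antisymm (Ideal.toIdeal_homogeneousCore_le _ _) h3

theorem min_eq [IsAlgClosed K] {I P : Ideal (MvPolynomial (Fin (n + 1)) K)}
    (hI : I.IsHomogeneous (homogeneousSubmodule (Fin (n + 1)) K)) (hP : P ∈ I.minimalPrimes)
    (hh : P.height = (n : ℕ∞)) : ∃ p : Fin (n + 1) → K, p ≠ 0 ∧ P = linI p := by
  have : P.IsPrime := hP.1.1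
  have h0 : ∃ p : Fin (n + 1) → K, p ≠ 0 ∧ p ∈ zeroLocus K P := by
    by_contra hcon
    push Not at hcon
    have h1 : irr K n ≤ P := by
      rw [← IsPrime.vanishingIdeal_zeroLocus (K := K) P]
      unfold irr
      rw [Ideal.span_le]
      rintro _ ⟨j, rfl⟩ x hx
      have hx0 : x = 0 := by
        by_contra hne
        exact hcon x hne hx
      rw [hx0, aeval_X, Pi.zero_apply]
    have h2 := eq_mI_zero (Ideal.IsPrime.ne_top inferInstance) h1
    rw [h2, height_mI_zero] at hh
    have h3 : n + 1 = n := by exact_mod_cast hh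
    omega
  obtain ⟨p, hp, hz⟩ := h0
  refine ⟨p, hp, ?_⟩
  have hle : P ≤ linI p := by
    intro f hf
    rw [← sum_homogeneousComponent f]
    apply Ideal.sum_mem
    intro d _
    have h1 : homogeneousComponent d f ∈ P :=
      homogeneousComponent_mem_of_mem (min_homog hI hP) hf d
    have h2 : homogeneousComponent d f ∈ mI p ^ 1 := by
      rw [pow_one]
      have := hz _ h1
      rw [aev] at this
      exact this
    have h3 := mem_linI_pow (homogeneousComponent_isHomogeneous d f) hp h2
    rwa [pow_one] at h3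
  exact Ideal.eq_of_le_of_height_le P hle (by rw [hh]; exact height_linI_le hp)

end graded

end

end Pool.Agent.H737R4
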