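import Pool.Agent.H737R4.Res
import Pool.Agent.H737R4.Min

/-!
The stable containment for homogeneous radical ideals whose minimal primes have height `N`.
-/

set_option autoImplicit false

universe u

namespace Pool.Agent.H737R4

open MvPolynomial Pool.Agent.Chud Pool.Agent.H580C Pool.Agent.H737R3 Pool.Agent.H737R3.Cont

section

variable {K : Type u} [Field K] [IsAlgClosed K] [CharZero K] {N : ℕ}

attribute [local instance] MvPolynomial.gradedAlgebra

theorem resAlgClosed (hN : 2 ≤ N) (I : Ideal (MvPolynomial (Fin (N + 1)) K))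
    (hrad : I.IsRadical)
    (hhom : ∀ f ∈ I, ∀ d : ℕ, homogeneousComponent d f ∈ I)
    (hmin : ∀ P ∈ I.minimalPrimes, P.height = (N : ℕ∞)) :
    ∃ ρ : ℝ, ρ < N ∧ ∀ a b : ℕ, ρ * b ≤ a → ∀ r : MvPolynomial (Fin (N + 1)) K,
      (∀ P ∈ I.minimalPrimes, ∃ t, t ∉ P ∧ t * r ∈ I ^ a) → r ∈ I ^ b := by
  classical
  have hI : I.IsHomogeneous (homogeneousSubmodule (Fin (N + 1)) K) := by
    intro i f hf
    have h1 := hhom f hf i
    rwa [← MvPolynomial.decomposition.decompose'_apply] at h1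
  have hfin : Finite I.minimalPrimes := (Ideal.finite_minimalPrimes_of_isNoetherianRing _ I)
  choose! p hp0 hp using fun P hP => min_eq (K := K) (n := N) (I := I) (P := P) hI hP (hmin P hP)
  have hinf : (⨅ P : I.minimalPrimes, linI (p P.1)) = I := by
    have h1 : sInf I.minimalPrimes = I := by
      rw [Ideal.sInf_minimalPrimes]
      exact hrad.radical
    conv_rhs => rw [← h1]
    rw [sInf_eq_iInf']
    exact iInf_congr fun P => (hp P.1 P.2).symm
  rcases isEmpty_or_nonempty I.minimalPrimes with he | hne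
  · refine ⟨N - 1, by linarith, fun a b _ r _ => ?_⟩
    have hI' : I = ⊤ := by
      rw [← hinf]
      exact iInf_of_empty _
    rw [hI', Ideal.top_pow]
    exact Submodule.mem_top
  obtain ⟨ρ, hρ, h⟩ := resurgence (K := K) hN (fun P : I.minimalPrimes => p P.1)
    (fun P => hp0 P.1 P.2) (by
      intro P Q hPQ hle
      apply hPQ
      rw [← hp P.1 P.2, ← hp Q.1 Q.2] at hle
      exact Subtype.ext (le_antisymm hle (Q.2.2 ⟨P.2.1.1, P.2.1.2⟩ hle)))
  refine ⟨ρ, hρ, ?_⟩
  intro a b hab r hr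
  have h2 := h a b hab r (by
    intro P
    obtain ⟨t, ht, htr⟩ := hr P.1 P.2
    rw [hp P.1 P.2] at ht
    apply linI_pow_prim (hp0 P.1 P.2) ht
    refine Ideal.pow_right_mono ?_ _ htr
    have h3 : I ≤ P.1 := P.2.1.2
    rwa [hp P.1 P.2] at h3)
  rwa [hinf] at h2

end

/-- from the resurgence to the stable containments -/
theorem stable_of_res {N : ℕ} (C : ℕ) {ρ : ℝ} (hρ : ρ < N) :
    ∃ n₀ : ℕ, ∀ n : ℕ, n₀ ≤ n → ρ * n ≤ ((N * n - C : ℕ) : ℝ) := by
  obtain ⟨n₀, hn₀⟩ := exists_nat_ge ((C : ℝ) / (N - ρ))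
  refine ⟨n₀, fun n hn => ?_⟩
  have h1 : (C : ℝ) / (N - ρ) ≤ n := hn₀.trans (by exact_mod_cast hn)
  have h2 : (0 : ℝ) < N - ρ := by linarith
  rw [div_le_iff₀ h2] at h1
  have h3 : ((N * n : ℕ) : ℝ) ≤ ((N * n - C : ℕ) : ℝ) + C := by
    have : N * n ≤ N * n - C + C := by omega
    exact_mod_cast this
  push_cast at h3
  nlinarith

end Pool.Agent.H737R4
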