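import Pool.Agent.H737R4.Desc
import Pool.Agent.H737R4.Main

/-!
The general case (arbitrary fields of characteristic zero).
-/

set_option autoImplicit false

universe u

namespace Pool.Agent.H737R4

open MvPolynomial Pool.Agent.Chud Pool.Agent.H580C Pool.Agent.H737R3 Pool.Agent.H737R3.Cont

section

variable {k : Type u} [Field k] {n : ℕ}

theorem bc_integral (f : MvPolynomial (Fin (n + 1)) (AlgebraicClosure k)) :
    (bc k n).IsIntegralElem f := by
  induction f using MvPolynomial.induction_on with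
  | C a =>
    have h1 : (algebraMap k (AlgebraicClosure k)).IsIntegralElem a :=
      Algebra.IsIntegral.isIntegral a
    obtain ⟨p, hp, hpa⟩ := h1
    refine ⟨p.map C, hp.map _, ?_⟩
    rw [Polynomial.eval₂_map]
    have h2 : (bc k n).comp C = (C : AlgebraicClosure k →+* _).comp
        (algebraMap k (AlgebraicClosure k)) := by
      ext a
      simp [bc]
    rw [h2, ← Polynomial.hom_eval₂, hpa, map_zero]
  | add f g hf hg => exact RingHom.IsIntegralElem.add _ hf hg
  | mul_X f i hf =>
    apply RingHom.IsIntegralElem.mul _ hf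
    have h3 : bc k n (X i) = X i := by simp [bc]
    rw [← h3]
    exact (bc k n).isIntegralElem_map

theorem bc_incomp {Q Q' : Ideal (MvPolynomial (Fin (n + 1)) (AlgebraicClosure k))} (hQ : Q.IsPrime)
    (hle : Q ≤ Q') (h : Q'.comap (bc k n) ≤ Q.comap (bc k n)) : Q = Q' := by
  by_contra hne
  let : Algebra (MvPolynomial (Fin (n + 1)) k)
    (MvPolynomial (Fin (n + 1)) (AlgebraicClosure k)) := (bc k n).toAlgebra
  obtain ⟨x, hx, hxQ⟩ := SetLike.exists_of_lt (lt_of_le_of_ne hle hne)
  have h1 := Ideal.comap_lt_comap_of_integral_mem_sdiff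
    (R := MvPolynomial (Fin (n + 1)) k) hle ⟨hx, hxQ⟩ (bc_integral x)
  exact absurd h (not_le_of_gt h1)

theorem height_mI_zero_le : (mI (0 : Fin (n + 1) → k)).height ≤ ((n + 1 : ℕ) : ℕ∞) := by
  have h1 := Ideal.height_le_ringKrullDim_of_isPrime (I := mI (0 : Fin (n + 1) → k))
  rw [dimR] at h1
  exact_mod_cast h1

theorem bc_comap_mI : (mI (0 : Fin (n + 1) → AlgebraicClosure k)).comap (bc k n) =
    mI (0 : Fin (n + 1) → k) := by
  ext f
  rw [Ideal.mem_comap]
  change eval 0 (bc k n f) = 0 ↔ eval 0 f = 0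
  rw [MvPolynomial.eval_zero, MvPolynomial.eval_zero, constantCoeff_eq, constantCoeff_eq]
  simp only [bc, coeff_map]
  rw [map_eq_zero]

theorem le_height_mI_zero : ((n + 1 : ℕ) : ℕ∞) ≤ (mI (0 : Fin (n + 1) → k)).height := by
  let : Algebra (MvPolynomial (Fin (n + 1)) k)
    (MvPolynomial (Fin (n + 1)) (AlgebraicClosure k)) := (bc k n).toAlgebra
  have hlies : (mI (0 : Fin (n + 1) → AlgebraicClosure k)).LiesOver
      (mI (0 : Fin (n + 1) → k)) := ⟨bc_comap_mI.symm⟩
  have h1 := Ideal.height_le_height_add_of_liesOver (mI (0 : Fin (n + 1) → k))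
    (mI (0 : Fin (n + 1) → AlgebraicClosure k))
  rw [height_mI_zero] at h1
  have h2 : (mI (0 : Fin (n + 1) → k)).map (algebraMap (MvPolynomial (Fin (n + 1)) k)
      (MvPolynomial (Fin (n + 1)) (AlgebraicClosure k))) =
      mI (0 : Fin (n + 1) → AlgebraicClosure k) := by
    apply eq_mI_zero
    · intro htop
      have h3 : (mI (0 : Fin (n + 1) → k)).map (algebraMap (MvPolynomial (Fin (n + 1)) k)
          (MvPolynomial (Fin (n + 1)) (AlgebraicClosure k))) ≤
          mI (0 : Fin (n + 1) → AlgebraicClosure k) := by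
        rw [Ideal.map_le_iff_le_comap]
        exact le_of_eq bc_comap_mI.symm
      rw [htop, top_le_iff] at h3
      exact (mI_max (0 : Fin (n + 1) → AlgebraicClosure k)).ne_top h3
    · unfold irr
      rw [Ideal.span_le]
      rintro _ ⟨j, rfl⟩
      have h4 : bc k n (X j) = X j := by simp [bc]
      show (X j : MvPolynomial (Fin (n + 1)) (AlgebraicClosure k)) ∈ _
      rw [← h4]
      apply Ideal.mem_map_of_mem (bc k n)
      change eval 0 (X j) = 0
      rw [eval_X, Pi.zero_apply]
  have h5 : ((mI (0 : Fin (n + 1) → AlgebraicClosure k)).map (Ideal.Quotient.mk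
      ((mI (0 : Fin (n + 1) → k)).map (algebraMap (MvPolynomial (Fin (n + 1)) k)
      (MvPolynomial (Fin (n + 1)) (AlgebraicClosure k)))))) = ⊥ := by
    rw [Ideal.map_eq_bot_iff_le_ker, Ideal.mk_ker, h2]
  rw [h5] at h1
  have h6 : Nontrivial (MvPolynomial (Fin (n + 1)) (AlgebraicClosure k) ⧸
      ((mI (0 : Fin (n + 1) → k)).map (algebraMap (MvPolynomial (Fin (n + 1)) k)
      (MvPolynomial (Fin (n + 1)) (AlgebraicClosure k))))) := by
    rw [h2]
    infer_instance
  rw [Ideal.height_bot, add_zero] at h1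
  exact h1

end

end Pool.Agent.H737R4
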