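import Pool.Agent.H737R3.Cont.Main

/-!
Saturation of powers of ideals of points.
-/

set_option autoImplicit false

universe u

namespace Pool.Agent.H737R4

open MvPolynomial Pool.Agent.H737R3 Pool.Agent.H737R3.Cont

section

variable {K : Type u} [Field K] {n : ℕ}

/-- a prime ideal which contains the ideals of two different points is the irrelevant ideal -/
theorem irr_le_of_two {a b : Fin (n + 1) → K} (hab : ¬ linI a ≤ linI b)
    {Q : Ideal (MvPolynomial (Fin (n + 1)) K)} (ha : linI a ≤ Q) (hb : linI b ≤ Q) :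
    irr K n ≤ Q := by
  have h1 : ∃ l : MvPolynomial (Fin (n + 1)) K, l.IsHomogeneous 1 ∧ eval a l = 0 ∧
      eval b l ≠ 0 := by
    by_contra hcon
    push Not at hcon
    apply hab
    unfold linI
    apply Ideal.span_mono
    rintro l ⟨hl, hl0⟩
    exact ⟨hl, hcon l hl hl0⟩
  obtain ⟨l, hl, hla, hlb⟩ := h1
  have hlQ : l ∈ Q := ha (Ideal.subset_span ⟨hl, hla⟩)
  unfold irr
  rw [Ideal.span_le]
  rintro _ ⟨j, rfl⟩
  have h2 : (X j - C (b j / eval b l) * l : MvPolynomial (Fin (n + 1)) K) ∈ linI b := by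
    apply Ideal.subset_span
    refine ⟨?_, ?_⟩
    · apply IsHomogeneous.sub (isHomogeneous_X _ _)
      have := (isHomogeneous_C (Fin (n + 1)) (b j / eval b l)).mul hl
      rwa [zero_add] at this
    · rw [map_sub, eval_X, map_mul, eval_C]
      field_simp
      ring
  have h3 : (X j : MvPolynomial (Fin (n + 1)) K) =
      (X j - C (b j / eval b l) * l) + C (b j / eval b l) * l := by ring
  show (X j : MvPolynomial (Fin (n + 1)) K) ∈ Q
  rw [h3]
  exact Ideal.add_mem _ (hb h2) (Ideal.mul_mem_left _ _ hlQ)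

theorem sat {ι : Type*} [Finite ι] (P : ι → Fin (n + 1) → K)
    (hP : ∀ i j, i ≠ j → ¬ linI (P i) ≤ linI (P j)) (t : ℕ)
    {x : MvPolynomial (Fin (n + 1)) K} (hx : ∀ i, x ∈ linI (P i) ^ t) :
    ∃ e : ℕ, ∀ y ∈ irr K n ^ e, y * x ∈ (⨅ i, linI (P i)) ^ t := by
  classical
  have : Fintype ι := Fintype.ofFinite ι
  set I : Ideal (MvPolynomial (Fin (n + 1)) K) := ⨅ i, linI (P i) with hI
  let Q : Ideal (MvPolynomial (Fin (n + 1)) K) := (I ^ t).colon (Ideal.span {x} : Set _)
  have hQ : ∀ y, y ∈ Q ↔ y * x ∈ I ^ t := by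
    intro y
    rw [Ideal.mem_colon_span_singleton]
  suffices h : irr K n ≤ Q.radical by
    obtain ⟨e, he⟩ := Ideal.exists_pow_le_of_le_radical_of_fg h
      (IsNoetherian.noetherian _)
    exact ⟨e, fun y hy => (hQ y).1 (he hy)⟩
  rw [Ideal.radical_eq_sInf]
  apply le_sInf
  rintro q ⟨hQq, hq⟩
  by_contra hirr
  -- `I ≤ q`
  have hIq : I ≤ q := by
    intro y hy
    apply hq.mem_of_pow_mem t
    apply hQq
    rw [hQ]
    exact Ideal.mul_mem_right _ _ (Ideal.pow_mem_pow hy t)
  have h1 : ∃ j, linI (P j) ≤ q := by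
    have h2 : (Finset.univ.inf fun i => linI (P i)) ≤ q := by
      rw [Finset.inf_univ_eq_iInf]
      exact hIq
    obtain ⟨j, -, hj⟩ := (hq.inf_le' (s := Finset.univ) (f := fun i => linI (P i))).1 h2
    exact ⟨j, hj⟩
  obtain ⟨j, hj⟩ := h1
  -- an element of the other ideals, not in `q`
  have h3 : ∃ u, u ∉ q ∧ ∀ i, i ≠ j → u ∈ linI (P i) := by
    by_contra hcon
    push Not at hcon
    have h4 : ((Finset.univ.erase j).inf fun i => linI (P i)) ≤ q := by
      intro u hu
      by_contra huq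
      obtain ⟨i, hij, hui⟩ := hcon u huq
      apply hui
      exact (Submodule.mem_finsetInf.1 hu) i (Finset.mem_erase.2 ⟨hij, Finset.mem_univ _⟩)
    obtain ⟨i, hi, hiq⟩ := (hq.inf_le' (s := Finset.univ.erase j)
      (f := fun i => linI (P i))).1 h4
    exact hirr (irr_le_of_two (hP i j (Finset.ne_of_mem_erase hi)) hiq hj)
  obtain ⟨u, huq, hu⟩ := h3
  have h5 : Ideal.span {u} * linI (P j) ≤ I := by
    rw [hI]
    apply le_iInf
    intro i
    by_cases hij : i = j
    · rw [hij]; exact Ideal.mul_le_right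
    · refine Ideal.mul_le_left.trans ?_
      rw [Ideal.span_singleton_le_iff_mem]
      exact hu i hij
  have h6 : u ^ t * x ∈ I ^ t := by
    have := Ideal.pow_right_mono h5 t
    rw [mul_pow, Ideal.span_singleton_pow] at this
    exact this (Ideal.mul_mem_mul (Ideal.mem_span_singleton_self _) (hx j))
  exact huq (hq.mem_of_pow_mem t (hQq ((hQ _).2 h6)))

end

end Pool.Agent.H737R4
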