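import Pool.Agent.H737R4.Artin
import Pool.Agent.H737R4.Sat

/-!
The stable Harbourne containment for finite sets of points.
-/

set_option autoImplicit false

universe u

namespace Pool.Agent.H737R4

open MvPolynomial Pool.Agent.H737R3 Pool.Agent.H737R3.Cont

section

variable {K : Type u} [Field K] [CharZero K] {n : ℕ}

theorem cont_one {ι : Type*} [Finite ι] [Nonempty ι] (hn : 2 ≤ n) {t : ℕ} (ht : 0 < t)
    (P : ι → Fin (n + 1) → K) (hP0 : ∀ i, P i ≠ 0)
    {F : MvPolynomial (Fin (n + 1)) K} (hF : ∀ i, F ∈ linI (P i) ^ (t * n)) :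
    F ∈ irr K n ^ t * (⨅ i, linI (P i)) ^ t := by
  obtain ⟨s, ⟨e⟩⟩ := Finite.exists_equiv_fin ι
  have hs : 0 < s := by
    obtain ⟨i⟩ := (inferInstance : Nonempty ι)
    exact (e i).pos
  have h1 := cont (K := K) hn hs ht (fun i => P (e.symm i)) (fun i => hP0 _) (fun _ => 1)
  have h2 : F ∈ (⨅ i : Fin s, linI (P (e.symm i)) ^ (t * (1 + n - 1))) := by
    rw [Submodule.mem_iInf]
    intro i
    rw [Nat.add_sub_cancel_left]
    exact hF _
  have h3 := h1 h2
  have h4 : (⨅ i : Fin s, linI (P (e.symm i)) ^ 1) = ⨅ i, linI (P i) := by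
    simp only [pow_one]
    exact e.symm.iInf_comp (g := fun i => linI (P i))
  rwa [h4] at h3

theorem stable {ι : Type*} [Finite ι] [Nonempty ι] (hn : 2 ≤ n)
    (P : ι → Fin (n + 1) → K) (hP0 : ∀ i, P i ≠ 0)
    (hP : ∀ i j, i ≠ j → ¬ linI (P i) ≤ linI (P j)) (C : ℕ) :
    ∃ m₀ : ℕ, ∀ m, m₀ ≤ m → ∀ F : MvPolynomial (Fin (n + 1)) K,
      (∀ i, F ∈ linI (P i) ^ (n * m - C)) → F ∈ (⨅ i, linI (P i)) ^ m := by
  obtain ⟨t₀, h⟩ := artin (⨅ i, linI (P i)) (irr K n) C
    (fun t => ⨅ i, linI (P i) ^ (t + C)) (by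
      intro a t
      apply le_iInf
      intro i
      rw [add_assoc, pow_add]
      exact Ideal.mul_mono (Ideal.pow_right_mono (iInf_le _ i) _) (iInf_le _ i)) (by
      intro t x hx
      exact sat P hP (t + C) fun i => (Submodule.mem_iInf _).1 hx i)
  refine ⟨t₀ + C + 1, ?_⟩
  intro m hm F hF
  obtain ⟨t, rfl⟩ : ∃ t, m = t + C := ⟨m - C, by omega⟩
  have ht : 0 < t := by omega
  apply h t (by omega)
  refine ⟨?_, ?_⟩
  · apply cont_one hn ht P hP0
    intro i
    refine Ideal.pow_le_pow_right ?_ (hF i)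
    have : C ≤ n * C := Nat.le_mul_of_pos_left _ (by omega)
    rw [Nat.mul_add, Nat.mul_comm t n]
    omega
  · show F ∈ ⨅ i, linI (P i) ^ (t + C)
    rw [Submodule.mem_iInf]
    intro i
    refine Ideal.pow_le_pow_right ?_ (hF i)
    have h1 : 2 * (t + C) ≤ n * (t + C) := Nat.mul_le_mul_right _ hn
    omega

end

end Pool.Agent.H737R4
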