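import Pool.Agent.H737R3.Cont.Main

/-!
Powers of the ideal of a point of projective space are primary.
-/

set_option autoImplicit false

universe u

namespace Pool.Agent.H737R4

open MvPolynomial Pool.Agent.Chud Pool.Agent.H580C Pool.Agent.H737R3 Pool.Agent.H737R3.Cont

section

variable {K : Type u} [Field K] {n : ℕ}

/-- the dilation by `l` -/
noncomputable def dil (l : K) :
    MvPolynomial (Fin (n + 1)) K →ₐ[K] MvPolynomial (Fin (n + 1)) K :=
  aeval fun i => C l * X i

theorem dil_homog (l : K) {F : MvPolynomial (Fin (n + 1)) K} {d : ℕ} (hF : F.IsHomogeneous d) :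
    dil l F = C (l ^ d) * F := by
  conv_lhs => rw [F.as_sum]
  conv_rhs => rw [F.as_sum]
  rw [map_sum, Finset.mul_sum]
  apply Finset.sum_congr rfl
  intro c hc
  have h3 : c.degree = d := by
    have := hF (mem_support_iff.1 hc)
    rwa [Finsupp.degree_eq_weight_one]
  unfold dil
  rw [aeval_monomial, monomial_eq, Finsupp.prod_fintype _ _ (by simp),
    Finsupp.prod_fintype _ _ (by simp)]
  simp only [mul_pow, Finset.prod_mul_distrib, algebraMap_eq]
  rw [Finset.prod_pow_eq_pow_sum, ← Finsupp.degree_eq_sum, h3, C_pow]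
  ring

theorem dil_linI (l : K) (p : Fin (n + 1) → K) (s : ℕ) {F : MvPolynomial (Fin (n + 1)) K}
    (hF : F ∈ linI p ^ s) : dil l F ∈ linI p ^ s := by
  have h1 := Ideal.mem_map_of_mem (dil l : MvPolynomial (Fin (n + 1)) K →ₐ[K] _).toRingHom hF
  rw [Ideal.map_pow] at h1
  refine Ideal.pow_right_mono ?_ s h1
  unfold linI
  rw [Ideal.map_span, Ideal.span_le]
  rintro _ ⟨f, ⟨hf, hf0⟩, rfl⟩
  change dil l f ∈ _
  rw [dil_homog l hf]
  exact Ideal.mul_mem_left _ _ (Ideal.subset_span ⟨hf, hf0⟩)

theorem eval_dil (l : K) (p : Fin (n + 1) → K) (F : MvPolynomial (Fin (n + 1)) K) :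
    eval p (dil l F) = Polynomial.eval l (eval₂Hom (Polynomial.C : K →+* Polynomial K)
      (fun i => Polynomial.C (p i) * Polynomial.X) F) := by
  have h : (eval p).comp (dil l : MvPolynomial (Fin (n + 1)) K →ₐ[K] _).toRingHom =
      (Polynomial.evalRingHom l).comp (eval₂Hom (Polynomial.C : K →+* Polynomial K)
      (fun i => Polynomial.C (p i) * Polynomial.X)) := by
    apply MvPolynomial.ringHom_ext
    · intro a
      simp [dil]
    · intro i
      simp only [dil, RingHom.comp_apply, AlgHom.toRingHom_eq_coe, RingHom.coe_coe, aeval_X,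
        map_mul, eval_C, eval_X, eval₂Hom_X', Polynomial.coe_evalRingHom, Polynomial.eval_C,
        Polynomial.eval_X]
      ring
  exact congrArg (fun g => g F) h

theorem mI_pow_prim (p : Fin (n + 1) → K) {s : ℕ} {t r : MvPolynomial (Fin (n + 1)) K}
    (ht : t ∉ mI p) (h : t * r ∈ mI p ^ s) : r ∈ mI p ^ s := by
  have hmax : (mI p).IsMaximal := by
    apply RingHom.ker_isMaximal_of_surjective (eval p)
    intro a
    exact ⟨C a, eval_C a⟩
  rcases Nat.eq_zero_or_pos s with rfl | hs
  · rw [pow_zero, Ideal.one_eq_top]; exact Submodule.mem_top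
  have hprim : (mI p ^ s).IsPrimary := by
    apply Ideal.isPrimary_of_isMaximal_radical
    rw [Ideal.radical_pow _ (by omega), hmax.isPrime.radical]
    exact hmax
  rw [mul_comm] at h
  rcases (Ideal.isPrimary_iff.1 hprim).2 h with h1 | h1
  · exact h1
  · rw [Ideal.radical_pow _ (by omega), hmax.isPrime.radical] at h1
    exact absurd h1 ht

theorem coeff_of_infinite {V : Type*} [AddCommGroup V] [Module K V] (D : ℕ) (v : ℕ → V)
    (S : Set K) (hS : S.Infinite)
    (h : ∀ l ∈ S, ∑ d ∈ Finset.range D, l ^ d • v d = 0) : ∀ d < D, v d = 0 := by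
  intro d hd
  rw [← Module.forall_dual_apply_eq_zero_iff K]
  intro φ
  let q : Polynomial K := ∑ d ∈ Finset.range D, Polynomial.C (φ (v d)) * Polynomial.X ^ d
  have hq : q = 0 := by
    apply Polynomial.eq_zero_of_infinite_isRoot
    apply hS.mono
    intro l hl
    have h1 := congrArg φ (h l hl)
    rw [map_sum, map_zero] at h1
    change Polynomial.IsRoot q l
    rw [Polynomial.IsRoot.def, Polynomial.eval_finsetSum, ← h1]
    apply Finset.sum_congr rfl
    intro d _
    rw [Polynomial.eval_mul, Polynomial.eval_C, Polynomial.eval_pow, Polynomial.eval_X,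
      map_smul, smul_eq_mul]
    ring
  have h2 : q.coeff d = φ (v d) := by
    change (∑ d ∈ Finset.range D, Polynomial.C (φ (v d)) * Polynomial.X ^ d).coeff d = _
    rw [Polynomial.finsetSum_coeff]
    simp only [Polynomial.coeff_C_mul, Polynomial.coeff_X_pow, mul_ite, mul_one, mul_zero]
    rw [Finset.sum_ite_eq, if_pos (Finset.mem_range.2 hd)]
  rw [← h2, hq, Polynomial.coeff_zero]

theorem linI_pow_prim [Infinite K] {p : Fin (n + 1) → K} (hp : p ≠ 0) {s : ℕ}
    {t r : MvPolynomial (Fin (n + 1)) K} (ht : t ∉ linI p) (h : t * r ∈ linI p ^ s) :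
    r ∈ linI p ^ s := by
  -- the values of `t` along the line
  let q : Polynomial K := eval₂Hom (Polynomial.C : K →+* Polynomial K)
      (fun i => Polynomial.C (p i) * Polynomial.X) t
  have hq : q ≠ 0 := by
    intro h0
    apply ht
    rw [← ker_eq_linI hp]
    exact h0
  have hS : {l : K | ¬ q.IsRoot l}.Infinite := by
    have hfin : {l : K | q.IsRoot l}.Finite := by
      by_contra hcon
      exact hq (Polynomial.eq_zero_of_infinite_isRoot q hcon)
    exact hfin.infinite_compl
  -- the dilates of `r`
  have h1 : ∀ l : K, ¬ q.IsRoot l → dil l r ∈ mI p ^ s := by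
    intro l hl
    apply mI_pow_prim p (t := dil l t)
    · intro h0
      apply hl
      change eval p (dil l t) = 0 at h0
      rwa [eval_dil] at h0
    · rw [← map_mul]
      exact Ideal.pow_right_mono (linI_le_mI p) _ (dil_linI l p s h)
  -- the homogeneous components of `r`
  have h2 := coeff_of_infinite (V := MvPolynomial (Fin (n + 1)) K ⧸
      (mI p ^ s)) (r.totalDegree + 1)
    (fun d => Ideal.Quotient.mk (mI p ^ s) (homogeneousComponent d r)) _ hS (by
      intro l hl
      have h3 := h1 l hl
      rw [← sum_homogeneousComponent r, map_sum] at h3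
      rw [← Ideal.Quotient.eq_zero_iff_mem, map_sum] at h3
      rw [← h3]
      apply Finset.sum_congr rfl
      intro d _
      rw [dil_homog l (homogeneousComponent_isHomogeneous d r), ← smul_eq_C_mul]
      rfl)
  rw [← sum_homogeneousComponent r]
  apply Ideal.sum_mem
  intro d hd
  apply mem_linI_pow (homogeneousComponent_isHomogeneous d r) hp
  rw [← Ideal.Quotient.eq_zero_iff_mem]
  exact h2 d (Finset.mem_range.1 hd)

end

end Pool.Agent.H737R4
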