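import Pool.Agent.H737R4.Points

/-!
The resurgence of the ideal of a finite set of points.
-/

set_option autoImplicit false

universe u

namespace Pool.Agent.H737R4

open MvPolynomial Pool.Agent.H737R3 Pool.Agent.H737R3.Cont

theorem arith1 {n k a b : ℕ} (hn : 2 ≤ n) (hk : 1 ≤ k) (hb : b < 2 * n * k ^ 2)
    (h : (n * (2 * n * k ^ 2) - 1) * b ≤ (2 * n * k ^ 2) * a) : n * b ≤ a := by
  set q := 2 * n * k ^ 2 with hq
  by_contra hcon
  push Not at hcon
  have h1 : q * a + q ≤ q * (n * b) := by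
    have : q * (a + 1) ≤ q * (n * b) := Nat.mul_le_mul_left _ hcon
    linarith [this, Nat.mul_succ q a]
  have h2 : (n * q - 1) * b = n * q * b - b := by
    rw [Nat.sub_mul, one_mul]
  have h3 : b ≤ n * q * b := Nat.le_mul_of_pos_left _ (by positivity)
  have h4 : q * (n * b) = n * q * b := by ring
  omega

theorem arith2 {n k a b t : ℕ} (hn : 2 ≤ n) (hk : 1 ≤ k) (hb : 2 * n * k ^ 2 ≤ b)
    (h : (n * (2 * n * k ^ 2) - 1) * b ≤ (2 * n * k ^ 2) * a) (ht : k * t ≤ b + k - 1) :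
    t * (n * k - 1) ≤ a := by
  have hnk : 1 ≤ n * k := Nat.mul_pos (by omega) hk
  have hq0 : 0 < 2 * n * k ^ 2 := by positivity
  have hq1 : 1 ≤ n * (2 * n * k ^ 2) := Nat.mul_pos (by omega) hq0
  zify [hnk, hq1] at h ⊢
  have ht' : (k : ℤ) * t ≤ b + k - 1 := by
    have : k * t + 1 ≤ b + k := by omega
    have h2 : (k : ℤ) * t + 1 ≤ b + k := by exact_mod_cast this
    linarith
  have hb' : (2 * n * k ^ 2 : ℤ) ≤ b := by exact_mod_cast hb
  have hn' : (2 : ℤ) ≤ n := by exact_mod_cast hn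
  have hk' : (1 : ℤ) ≤ k := by exact_mod_cast hk
  have hnk' : (1 : ℤ) ≤ n * k := by exact_mod_cast hnk
  have hqk : (0 : ℤ) < (2 * n * k ^ 2) * k := by positivity
  have hb0 : (0 : ℤ) ≤ b := by positivity
  -- multiply by `q k`
  have key : (2 * n * k ^ 2 * k : ℤ) * (t * (n * k - 1)) ≤ (2 * n * k ^ 2 * k) * a := by
    have h1 : (2 * n * k ^ 2 * k : ℤ) * (t * (n * k - 1)) =
        (2 * n * k ^ 2) * (n * k - 1) * (k * t) := by ring
    have h2 : (2 * n * k ^ 2 : ℤ) * (n * k - 1) * (k * t) ≤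
        (2 * n * k ^ 2) * (n * k - 1) * (b + k - 1) :=
      mul_le_mul_of_nonneg_left ht' (mul_nonneg (by positivity) (by linarith))
    have h3 : (k : ℤ) * ((n * (2 * n * k ^ 2) - 1) * b) ≤ k * ((2 * n * k ^ 2) * a) :=
      mul_le_mul_of_nonneg_left h (by linarith)
    have h4 : (2 * n * k ^ 2 : ℤ) * (n * k - 1) * (b + k - 1) ≤
        k * ((n * (2 * n * k ^ 2) - 1) * b) := by
      -- `k b + q (k-1) (n k - 1) ≤ q b`
      have h5 : (k : ℤ) * b ≤ (n * k ^ 2) * b := by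
        apply mul_le_mul_of_nonneg_right _ hb0
        nlinarith
      have h6 : ((k : ℤ) - 1) * (n * k - 1) ≤ n * k ^ 2 := by nlinarith
      have h7 : (2 * n * k ^ 2 : ℤ) * (((k : ℤ) - 1) * (n * k - 1)) ≤
          (n * k ^ 2) * b := by
        calc (2 * n * k ^ 2 : ℤ) * (((k : ℤ) - 1) * (n * k - 1))
            ≤ (2 * n * k ^ 2 : ℤ) * (n * k ^ 2) :=
              mul_le_mul_of_nonneg_left h6 (by positivity)
          _ = (n * k ^ 2) * (2 * n * k ^ 2) := by ring
          _ ≤ (n * k ^ 2) * b := mul_le_mul_of_nonneg_left hb' (by positivity)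
      nlinarith [h5, h7]
    calc (2 * n * k ^ 2 * k : ℤ) * (t * (n * k - 1))
        = (2 * n * k ^ 2) * (n * k - 1) * (k * t) := h1
      _ ≤ (2 * n * k ^ 2) * (n * k - 1) * (b + k - 1) := h2
      _ ≤ k * ((n * (2 * n * k ^ 2) - 1) * b) := h4
      _ ≤ k * ((2 * n * k ^ 2) * a) := h3
      _ = (2 * n * k ^ 2 * k) * a := by ring
  exact le_of_mul_le_mul_left key hqk

section

variable {K : Type u} [Field K] [CharZero K] {n : ℕ}

theorem cont_const {ι : Type*} [Finite ι] [Nonempty ι] (hn : 2 ≤ n) {t : ℕ} (ht : 0 < t)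
    (P : ι → Fin (n + 1) → K) (hP0 : ∀ i, P i ≠ 0) (w : ℕ)
    {F : MvPolynomial (Fin (n + 1)) K} (hF : ∀ i, F ∈ linI (P i) ^ (t * (w + n - 1))) :
    F ∈ (⨅ i, linI (P i) ^ w) ^ t := by
  obtain ⟨s, ⟨e⟩⟩ := Finite.exists_equiv_fin ι
  have hs : 0 < s := by
    obtain ⟨i⟩ := (inferInstance : Nonempty ι)
    exact (e i).pos
  have h1 := cont (K := K) hn hs ht (fun i => P (e.symm i)) (fun i => hP0 _) (fun _ => w)
  have h2 : F ∈ (⨅ i : Fin s, linI (P (e.symm i)) ^ (t * (w + n - 1))) := by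
    rw [Submodule.mem_iInf]
    intro i
    exact hF _
  have h3 := Ideal.mul_le_right (h1 h2)
  have h4 : (⨅ i : Fin s, linI (P (e.symm i)) ^ w) = ⨅ i, linI (P i) ^ w :=
    e.symm.iInf_comp (g := fun i => linI (P i) ^ w)
  rwa [h4] at h3

theorem resurgence {ι : Type*} [Finite ι] [Nonempty ι] (hn : 2 ≤ n)
    (P : ι → Fin (n + 1) → K) (hP0 : ∀ i, P i ≠ 0)
    (hP : ∀ i j, i ≠ j → ¬ linI (P i) ≤ linI (P j)) :
    ∃ ρ : ℝ, ρ < n ∧ ∀ a b : ℕ, ρ * b ≤ a → ∀ F : MvPolynomial (Fin (n + 1)) K,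
      (∀ i, F ∈ linI (P i) ^ a) → F ∈ (⨅ i, linI (P i)) ^ b := by
  obtain ⟨m₀, h⟩ := stable hn P hP0 hP n
  let k := m₀ + 1
  have hk : 1 ≤ k := by omega
  have hA : (⨅ i, linI (P i) ^ (n * k - n)) ≤ (⨅ i, linI (P i)) ^ k := by
    intro F hF
    exact h k (by omega) F fun i => (Submodule.mem_iInf _).1 hF i
  have hq0 : 0 < 2 * n * k ^ 2 := by positivity
  refine ⟨n - 1 / (2 * n * k ^ 2 : ℕ), ?_, ?_⟩
  · have : (0 : ℝ) < 1 / (2 * n * k ^ 2 : ℕ) := by positivity
    linarith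
  · intro a b hab F hF
    have h1 : (n * (2 * n * k ^ 2) - 1) * b ≤ (2 * n * k ^ 2) * a := by
      have h2 : ((n * (2 * n * k ^ 2 : ℕ) - 1 : ℝ)) * b ≤ (2 * n * k ^ 2 : ℕ) * a := by
        have h3 : (0 : ℝ) < (2 * n * k ^ 2 : ℕ) := by exact_mod_cast hq0
        have h4 := mul_le_mul_of_nonneg_left hab h3.le
        have h5 : ((2 * n * k ^ 2 : ℕ) : ℝ) * ((n - 1 / (2 * n * k ^ 2 : ℕ)) * b) =
            (n * (2 * n * k ^ 2 : ℕ) - 1 : ℝ) * b := by
          field_simp
        linarith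
      have h6 : 1 ≤ n * (2 * n * k ^ 2) := Nat.mul_pos (by omega) hq0
      have h7 : (((n * (2 * n * k ^ 2) - 1 : ℕ)) : ℝ) = (n * (2 * n * k ^ 2 : ℕ) - 1 : ℝ) := by
        rw [Nat.cast_sub h6, Nat.cast_mul, Nat.cast_one]
      rw [← h7] at h2
      exact_mod_cast h2
    rcases Nat.eq_zero_or_pos b with rfl | hb0
    · rw [pow_zero, Ideal.one_eq_top]; exact Submodule.mem_top
    by_cases hb : b < 2 * n * k ^ 2
    · have h8 := arith1 hn hk hb h1
      have h9 := cont_const hn hb0 P hP0 1 (F := F) (by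
        intro i
        rw [Nat.add_sub_cancel_left, Nat.mul_comm]
        exact Ideal.pow_le_pow_right h8 (hF i))
      simpa only [pow_one] using h9
    · let t := (b + k - 1) / k
      have ht1 : k * t ≤ b + k - 1 := Nat.mul_div_le _ _
      have ht2 : b ≤ k * t := by
        have h10 : b + k - 1 < k * (t + 1) := Nat.lt_mul_div_succ _ (by omega)
        rw [Nat.mul_succ] at h10
        omega
      have ht0 : 0 < t := by
        rcases Nat.eq_zero_or_pos t with h11 | h11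
        · rw [h11] at ht2; omega
        · exact h11
      have h12 := arith2 hn hk (by omega) h1 ht1
      have h13 := cont_const hn ht0 P hP0 (n * k - n) (F := F) (by
        intro i
        refine Ideal.pow_le_pow_right ?_ (hF i)
        have h14 : n ≤ n * k := Nat.le_mul_of_pos_right _ hk
        have h15 : n * k - n + n - 1 = n * k - 1 := by omega
        rw [h15]
        exact h12)
      have h16 := Ideal.pow_right_mono hA t h13
      rw [← pow_mul] at h16
      exact Ideal.pow_le_pow_right ht2 h16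

end

end Pool.Agent.H737R4
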